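import Mathlib

set_option autoImplicit false

namespace Pool.Agent.N721.PER

open Set MeasureTheory

/-- change of variables -/
theorem cov {S T : Set ℝ} (hS : MeasurableSet S) (f f' g h : ℝ → ℝ)
    (hd : ∀ x ∈ S, HasDerivAt f (f' x) x) (hi : InjOn f S) (him : f '' S = T)
    (he : ∀ x ∈ S, |f' x| * g (f x) = h x) :
    (IntegrableOn g T ↔ IntegrableOn h S) ∧ ∫ x in T, g x = ∫ x in S, h x := by
  subst him
  constructor
  · rw [integrableOn_image_iff_integrableOn_abs_deriv_smul hS
      (fun x hx => (hd x hx).hasDerivWithinAt) hi]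
    exact integrableOn_congr_fun (fun x hx => by simpa using he x hx) hS
  · rw [integral_image_eq_integral_abs_deriv_smul hS
      (fun x hx => (hd x hx).hasDerivWithinAt) hi]
    exact setIntegral_congr_fun hS (fun x hx => by simpa using he x hx)

variable {n : ℝ}

/-- the cubic of the twist of the isogenous curve -/
def u (n x : ℝ) : ℝ := 4 * x * (x + n) * (x + 9 * n)

/-- the cubic of the twist of `X_0(24)` -/
def w (n x : ℝ) : ℝ := 4 * x * (x + n) * (x - 3 * n)

theorem set_u (hn : 0 < n) : {x : ℝ | 0 < u n x} = Ioo (-9 * n) (-n) ∪ Ioi 0 := by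
  ext x
  simp only [mem_ofPred_eq, mem_union, mem_Ioo, mem_Ioi, u]
  constructor
  · intro h
    by_contra hc
    push Not at hc
    obtain ⟨h1, h2⟩ := hc
    rcases le_or_gt x (-9 * n) with h3 | h3
    · have : 4 * x * (x + n) * (x + 9 * n) ≤ 0 := by
        have h4 : 0 ≤ 4 * x * (x + n) := by nlinarith
        nlinarith
      linarith
    · have h4 := h1 h3
      have : 0 ≤ (-x) * (x + n) * (x + 9 * n) :=
        mul_nonneg (mul_nonneg (by linarith) (by linarith)) (by linarith)
      linarith
  · rintro (⟨h1, h2⟩ | h)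
    · have : 0 < (-x) * (-(x + n)) * (x + 9 * n) :=
        mul_pos (mul_pos (by linarith) (by linarith)) (by linarith)
      linarith
    · positivity

theorem set_w (hn : 0 < n) : {x : ℝ | 0 < w n x} = Ioo (-n) 0 ∪ Ioi (3 * n) := by
  ext x
  simp only [mem_ofPred_eq, mem_union, mem_Ioo, mem_Ioi, w]
  constructor
  · intro h
    by_contra hc
    push Not at hc
    obtain ⟨h1, h2⟩ := hc
    rcases le_or_gt x (-n) with h3 | h3
    · have : 0 ≤ (-x) * (-(x + n)) * (3 * n - x) :=
        mul_nonneg (mul_nonneg (by linarith) (by linarith)) (by linarith)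
      linarith
    · have h4 := h1 h3
      have : 0 ≤ x * (x + n) * (3 * n - x) :=
        mul_nonneg (mul_nonneg (by linarith) (by linarith)) (by linarith)
      linarith
  · rintro (⟨h1, h2⟩ | h)
    · have : 0 < (-x) * (x + n) * (3 * n - x) :=
        mul_pos (mul_pos (by linarith) (by linarith)) (by linarith)
      linarith
    · have h5 : 0 < x := by linarith
      have : 0 < x * (x + n) * (x - 3 * n) :=
        mul_pos (mul_pos (by linarith) (by linarith)) (by linarith)
      linarith

theorem sqrt_mul_self_of {a b c : ℝ} (hb : 0 < b) (h : a = b ^ 2 * c) : √a = b * √c := by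
  rw [h, Real.sqrt_mul (sq_nonneg b), Real.sqrt_sq hb.le]

/-- the two components of `u` -/
theorem egg (hn : 0 < n) :
    (IntegrableOn (fun x => 1 / √(u n x)) (Ioo (-9 * n) (-n)) ↔
      IntegrableOn (fun x => 1 / √(u n x)) (Ioi 0)) ∧
    ∫ x in Ioo (-9 * n) (-n), 1 / √(u n x) = ∫ x in Ioi 0, 1 / √(u n x) := by
  refine cov measurableSet_Ioi (fun x => -n - 8 * n ^ 2 / (x + n)) (fun x => 8 * n ^ 2 / (x + n) ^ 2)
    _ _ ?_ ?_ ?_ ?_
  · intro x hx
    have hx0 : 0 < x := hx
    have h1 : x + n ≠ 0 := by positivity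
    have h2 : HasDerivAt (fun x : ℝ => x + n) 1 x := (hasDerivAt_id x).add_const n
    have h3 := ((hasDerivAt_const x (8 * n ^ 2)).div h2 h1).const_sub (-n)
    exact HasDerivAt.congr_deriv h3 (by ring)
  · intro x hx y hy h
    have hx0 : 0 < x := hx
    have hy0 : 0 < y := hy
    have h1 : x + n ≠ 0 := by positivity
    have h2 : y + n ≠ 0 := by positivity
    simp only at h
    have h3 : 8 * n ^ 2 / (x + n) = 8 * n ^ 2 / (y + n) := by linarith
    rw [div_eq_div_iff h1 h2] at h3
    have h4 : (8 * n ^ 2) ≠ 0 := by positivity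
    have h5 := mul_left_cancel₀ h4 h3
    linarith
  · ext y
    simp only [mem_image, mem_Ioi, mem_Ioo]
    constructor
    · rintro ⟨x, hx, rfl⟩
      have h1 : 0 < x + n := by positivity
      have h2 : 0 < 8 * n ^ 2 / (x + n) := by positivity
      have h3 : 8 * n ^ 2 / (x + n) < 8 * n := by
        rw [div_lt_iff₀ h1]
        nlinarith
      constructor <;> linarith
    · rintro ⟨h1, h2⟩
      have h3 : 0 < -n - y := by linarith
      refine ⟨8 * n ^ 2 / (-n - y) - n, ?_, ?_⟩
      · have : n < 8 * n ^ 2 / (-n - y) := by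
          rw [lt_div_iff₀ h3]
          nlinarith
        linarith
      · have h4 : 8 * n ^ 2 ≠ 0 := by positivity
        field_simp
        ring
  · intro x hx
    have hx0 : 0 < x := hx
    have h1 : 0 < x + n := by positivity
    have h2 : √(u n (-n - 8 * n ^ 2 / (x + n))) = (8 * n ^ 2 / (x + n) ^ 2) * √(u n x) := by
      refine sqrt_mul_self_of (by positivity) ?_
      unfold u
      field_simp
      ring
    have h3 : 0 < √(u n x) := Real.sqrt_pos.2 (by unfold u; positivity)
    rw [h2, abs_of_pos (by positivity)]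
    field_simp

/-- the unbounded component of `w` -/
theorem comp1 (hn : 0 < n) :
    (IntegrableOn (fun x => 1 / √(u n x)) (Ioi 0) ↔
      IntegrableOn (fun x => 1 / √(w n x)) (Ioi (3 * n))) ∧
    ∫ x in Ioi 0, 1 / √(u n x) = ∫ x in Ioi (3 * n), 1 / √(w n x) := by
  refine cov measurableSet_Ioi (fun x => (x + n) - 5 * n + 4 * n ^ 2 / (x + n))
    (fun x => 1 - 4 * n ^ 2 / (x + n) ^ 2) _ _ ?_ ?_ ?_ ?_
  · intro x hx
    have hx0 : 3 * n < x := hx
    have h1 : x + n ≠ 0 := by
      have : 0 < x + n := by linarith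
      exact this.ne'
    have h2 : HasDerivAt (fun x : ℝ => x + n) 1 x := (hasDerivAt_id x).add_const n
    have h3 := (h2.sub_const (5 * n)).add ((hasDerivAt_const x (4 * n ^ 2)).div h2 h1)
    exact HasDerivAt.congr_deriv h3 (by ring)
  · intro x hx y hy h
    have hx0 : 3 * n < x := hx
    have hy0 : 3 * n < y := hy
    have h1 : 4 * n < x + n := by linarith
    have h2 : 4 * n < y + n := by linarith
    have h1' : x + n ≠ 0 := by
      have : 0 < x + n := by linarith
      exact this.ne'
    have h2' : y + n ≠ 0 := by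
      have : 0 < y + n := by linarith
      exact this.ne'
    simp only at h
    have h3 : (x - y) * ((x + n) * (y + n) - 4 * n ^ 2) = 0 := by
      field_simp at h
      linear_combination h
    have h4 : (x + n) * (y + n) - 4 * n ^ 2 ≠ 0 := by
      have : 4 * n * (4 * n) < (x + n) * (y + n) :=
        mul_lt_mul'' h1 h2 (by positivity) (by positivity)
      have h5 : 0 < n * n := by positivity
      intro h6
      nlinarith
    have h5 := (mul_eq_zero.1 h3).resolve_right h4
    linarith
  · ext t
    simp only [mem_image, mem_Ioi]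
    constructor
    · rintro ⟨x, hx, rfl⟩
      have h1 : 0 < x + n := by linarith
      have h2 : (x + n) - 5 * n + 4 * n ^ 2 / (x + n) = x * (x - 3 * n) / (x + n) := by
        field_simp
        ring
      rw [h2]
      have h3 : 0 < x := by linarith
      have h4 : 0 < x - 3 * n := by linarith
      positivity
    · intro ht
      set D := √((t + n) * (t + 9 * n)) with hD
      have hD2 : D ^ 2 = (t + n) * (t + 9 * n) := Real.sq_sqrt (by positivity)
      have hD0 : 0 ≤ D := Real.sqrt_nonneg _
      have hD1 : 3 * n < D := by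
        rw [hD]
        refine Real.lt_sqrt_of_sq_lt ?_
        nlinarith
      have h1 : 0 < t + 5 * n + D := by linarith
      refine ⟨(t + 5 * n + D) / 2 - n, by linarith, ?_⟩
      have h2 : (t + 5 * n + D) / 2 - n + n = (t + 5 * n + D) / 2 := by ring
      rw [h2]
      have h3 : 4 * n ^ 2 / ((t + 5 * n + D) / 2) = (t + 5 * n - D) / 2 := by
        rw [div_eq_iff (by positivity)]
        nlinarith
      rw [h3]
      ring
  · intro x hx
    have hx0 : 3 * n < x := hx
    have h1 : 0 < x + n := by linarith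
    have h4 : 0 < x := by linarith
    have h5 : 0 < x - 3 * n := by linarith
    have h7 : 4 * n ^ 2 / (x + n) ^ 2 < 1 := by
      rw [div_lt_one (by positivity)]
      nlinarith
    have h8 : 0 < 1 - 4 * n ^ 2 / (x + n) ^ 2 := by linarith
    have h2 : √(u n ((x + n) - 5 * n + 4 * n ^ 2 / (x + n))) =
        (1 - 4 * n ^ 2 / (x + n) ^ 2) * √(w n x) := by
      refine sqrt_mul_self_of h8 ?_
      unfold u w
      field_simp
      ring
    have h3 : 0 < √(w n x) := Real.sqrt_pos.2 (by unfold w; positivity)
    rw [h2, abs_of_pos h8, mul_one_div, div_mul_cancel_left₀ h8.ne', one_div]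

/-- the bounded component of `w` -/
theorem comp2 (hn : 0 < n) :
    (IntegrableOn (fun x => 1 / √(u n x)) (Ioi 0) ↔
      IntegrableOn (fun x => 1 / √(w n x)) (Ioo (-n) 0)) ∧
    ∫ x in Ioi 0, 1 / √(u n x) = ∫ x in Ioo (-n) 0, 1 / √(w n x) := by
  refine cov measurableSet_Ioo (fun x => (x + n) - 5 * n + 4 * n ^ 2 / (x + n))
    (fun x => 1 - 4 * n ^ 2 / (x + n) ^ 2) _ _ ?_ ?_ ?_ ?_
  · intro x hx
    have hx0 : 0 < x + n := by linarith [hx.1]
    have h1 : x + n ≠ 0 := hx0.ne'
    have h2 : HasDerivAt (fun x : ℝ => x + n) 1 x := (hasDerivAt_id x).add_const n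
    have h3 := (h2.sub_const (5 * n)).add ((hasDerivAt_const x (4 * n ^ 2)).div h2 h1)
    exact HasDerivAt.congr_deriv h3 (by ring)
  · intro x hx y hy h
    have h1 : 0 < x + n := by linarith [hx.1]
    have h2 : 0 < y + n := by linarith [hy.1]
    have h1' : x + n < n := by linarith [hx.2]
    have h2' : y + n < n := by linarith [hy.2]
    simp only at h
    have h3 : (x - y) * ((x + n) * (y + n) - 4 * n ^ 2) = 0 := by
      field_simp at h
      linear_combination h
    have h4 : (x + n) * (y + n) - 4 * n ^ 2 ≠ 0 := by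
      have : (x + n) * (y + n) < n * n :=
        mul_lt_mul'' h1' h2' h1.le h2.le
      have h5 : 0 < n * n := by positivity
      intro h6
      nlinarith
    have h5 := (mul_eq_zero.1 h3).resolve_right h4
    linarith
  · ext t
    simp only [mem_image, mem_Ioi, mem_Ioo]
    constructor
    · rintro ⟨x, hx, rfl⟩
      have h1 : 0 < x + n := by linarith
      have h2 : (x + n) - 5 * n + 4 * n ^ 2 / (x + n) = (-x) * (3 * n - x) / (x + n) := by
        field_simp
        ring
      rw [h2]
      have h3 : 0 < -x := by linarith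
      have h4 : 0 < 3 * n - x := by linarith
      positivity
    · intro ht
      set D := √((t + n) * (t + 9 * n)) with hD
      have hD2 : D ^ 2 = (t + n) * (t + 9 * n) := Real.sq_sqrt (by positivity)
      have hD0 : 0 ≤ D := Real.sqrt_nonneg _
      have hD1 : t + 3 * n < D := by
        rw [hD]
        refine Real.lt_sqrt_of_sq_lt ?_
        nlinarith
      have hD3 : D < t + 5 * n := by
        rw [hD, Real.sqrt_lt' (by positivity)]
        nlinarith
      have h1 : 0 < t + 5 * n - D := by linarith
      refine ⟨(t + 5 * n - D) / 2 - n, ⟨by linarith, by linarith⟩, ?_⟩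
      have h2 : (t + 5 * n - D) / 2 - n + n = (t + 5 * n - D) / 2 := by ring
      rw [h2]
      have h3 : 4 * n ^ 2 / ((t + 5 * n - D) / 2) = (t + 5 * n + D) / 2 := by
        rw [div_eq_iff (by positivity)]
        nlinarith
      rw [h3]
      ring
  · intro x hx
    have h1 : 0 < x + n := by linarith [hx.1]
    have h4 : 0 < -x := by linarith [hx.2]
    have h5 : 0 < 3 * n - x := by linarith [hx.2]
    have h6 : x + n < n := by linarith [hx.2]
    have h7 : 1 < 4 * n ^ 2 / (x + n) ^ 2 := by
      rw [one_lt_div (by positivity)]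
      nlinarith
    have h8 : 0 < 4 * n ^ 2 / (x + n) ^ 2 - 1 := by linarith
    have h2 : √(u n ((x + n) - 5 * n + 4 * n ^ 2 / (x + n))) =
        (4 * n ^ 2 / (x + n) ^ 2 - 1) * √(w n x) := by
      refine sqrt_mul_self_of h8 ?_
      unfold u w
      field_simp
      ring
    have h9 : 0 < w n x := by
      have : 0 < (-x) * (x + n) * (3 * n - x) := by positivity
      unfold w
      linarith
    have h3 : 0 < √(w n x) := Real.sqrt_pos.2 h9
    rw [h2, abs_of_neg (by linarith)]
    have h10 : -(1 - 4 * n ^ 2 / (x + n) ^ 2) = 4 * n ^ 2 / (x + n) ^ 2 - 1 := by ring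
    rw [h10, mul_one_div, div_mul_cancel_left₀ h8.ne', one_div]

/-- the two real periods agree -/
theorem per_int (hn : 0 < n) {v : ℝ} (hv : v ≠ 0)
    (h : ∫ x in {x : ℝ | 0 < u n x}, 1 / √(u n x) = v) :
    ∫ x in {x : ℝ | 0 < w n x}, 1 / √(w n x) = v := by
  have hI : IntegrableOn (fun x => 1 / √(u n x)) {x : ℝ | 0 < u n x} := by
    by_contra hc
    exact hv (by rw [← h, integral_undef hc])
  rw [set_u hn] at hI h
  have hI1 := hI.mono_set subset_union_left
  have hI2 := hI.mono_set subset_union_right
  have hd1 : Disjoint (Ioo (-9 * n) (-n)) (Ioi 0) := by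
    rw [Set.disjoint_left]
    intro x hx hx'
    have h1 : x < -n := hx.2
    have h2 : 0 < x := hx'
    linarith
  rw [setIntegral_union hd1 measurableSet_Ioi hI1 hI2, (egg hn).2] at h
  have hd2 : Disjoint (Ioo (-n) 0) (Ioi (3 * n)) := by
    rw [Set.disjoint_left]
    intro x hx hx'
    have h1 : x < 0 := hx.2
    have h2 : 3 * n < x := hx'
    linarith
  rw [set_w hn, setIntegral_union hd2 measurableSet_Ioi ((comp2 hn).1.1 hI2) ((comp1 hn).1.1 hI2),
    ← (comp2 hn).2, ← (comp1 hn).2]
  exact h

end Pool.Agent.N721.PER
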